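import Pool.Agent.Helper78.Gen2.Alt

/-!
# Average-case hardness for all models which are simulated in linear space, with alternation

This is the version of `Pool.Agent.Helper28.Gen.Main` in which a machine with an additional input
word `y` is used with alternating quantifiers over `y`.
-/

namespace Pool.Agent.Helper78.Gen2

open Pool.Agent.Helper65.LinSpace Pool.Agent.Helper78.Avg Finset Filter

variable {α : Type} [Ctx α]

/-- The value of the game, with advice. -/
noncomputable def UA (acc : ℕ → ℕ → ℕ → ℕ → ℕ) (N : ℕ → ℕ) (c e a x : ℕ) : ℕ :=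
  altN (c * Nat.log 2 x) fun t => ∑ S ∈ range (N x),
    lt01 0 (acc e x (catN a (leafW (c * Nat.log 2 x) t)) S)

theorem two_pow_le (c x : ℕ) : 2 ^ (c * Nat.log 2 x + 1) ≤ (x + 2) ^ (2 * (c + 1)) := by
  refine le_trans ?_ (Pool.Agent.Helper65.LinSpace.two_pow_log_le x (c + 1))
  refine Nat.pow_le_pow_right (by norm_num) ?_
  ring_nf
  omega

theorem LS.leafW (c : ℕ) {x t : α → ℕ} (hx : LS x) (ht : LS t) :
    LS (fun a => leafW (c * Nat.log 2 (x a)) (t a)) := by
  unfold Gen2.leafW
  refine LS.add ?_ ?_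
  · exact LS.tab (q := fun _ => 2) (m := fun a => c * Nat.log 2 (x a))
      (C := fun a => (x a + 2) ^ (2 * (c + 1)))
      (d := fun a i => dig 2 (t a) (c * Nat.log 2 (x a) - 1 - i))
      (by fun_prop) (by fun_prop) (by fun_prop) (by fun_prop)
      (fun a i _ => dig_lt (by norm_num) _ _)
      (fun a => (Nat.pow_le_pow_right (by norm_num) (Nat.le_succ _)).trans (two_pow_le c (x a)))
  · exact LS.pow_of_le (f := fun _ => 2) (g := fun a => c * Nat.log 2 (x a))
      (C := fun a => (x a + 2) ^ (2 * (c + 1))) (by fun_prop) (by fun_prop) (by fun_prop)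
      (fun a => (Nat.pow_le_pow_right (by norm_num) (Nat.le_succ _)).trans (two_pow_le c (x a)))

theorem LS.UA {acc : ℕ → ℕ → ℕ → ℕ → ℕ} {N : ℕ → ℕ}
    (hacc : LS (fun z : ℕ × ℕ × ℕ × ℕ => acc z.1 z.2.1 z.2.2.1 z.2.2.2)) (hN : LS N)
    (c : ℕ) {e b x : α → ℕ} (he : LS e) (hb : LS b) (hx : LS x) :
    LS (fun a => UA acc N c (e a) (b a) (x a)) := by
  unfold Gen2.UA
  refine LS.altN (N := fun a => c * Nat.log 2 (x a)) (C := fun a => (x a + 2) ^ (2 * (c + 1)))
    (F := fun a t => ∑ S ∈ range (N (x a)),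
      lt01 0 (acc (e a) (x a) (catN (b a) (Gen2.leafW (c * Nat.log 2 (x a)) t)) S))
    (by fun_prop) (by fun_prop) ?_ (fun a => two_pow_le c (x a))
  have hleaf : LS (fun z : (α × ℕ) × ℕ => Gen2.leafW (c * Nat.log 2 (x z.1.1)) z.1.2) :=
    LS.leafW c (by fun_prop) (by fun_prop)
  have harg : LS (fun z : (α × ℕ) × ℕ => (e z.1.1, x z.1.1,
      catN (b z.1.1) (Gen2.leafW (c * Nat.log 2 (x z.1.1)) z.1.2), z.2)) := by
    fun_prop
  have hsim : LS (fun z : (α × ℕ) × ℕ => acc (e z.1.1) (x z.1.1)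
      (catN (b z.1.1) (Gen2.leafW (c * Nat.log 2 (x z.1.1)) z.1.2)) z.2) :=
    LS.comp (f := fun z : (α × ℕ) × ℕ => (e z.1.1, x z.1.1,
      catN (b z.1.1) (Gen2.leafW (c * Nat.log 2 (x z.1.1)) z.1.2), z.2)) hacc harg
  exact LS.sum_le (α := α × ℕ) (N := fun z => N (x z.1)) (B := fun _ => 1)
    (f := fun z S => lt01 0 (acc (e z.1) (x z.1)
      (catN (b z.1) (Gen2.leafW (c * Nat.log 2 (x z.1)) z.2)) S))
    (LS.lt01 (LS.const 0) hsim) (LS.comp (f := fun z : α × ℕ => x z.1) hN (by fun_prop))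
    (by fun_prop) (fun z S _ => lt01_le_one _ _)

theorem UA_spec {acc : ℕ → ℕ → ℕ → ℕ → ℕ} {N : ℕ → ℕ} (c e : ℕ) {w a : List Bool}
    {Acc Good : List Bool → Prop}
    (h1 : ∀ (y : List Bool), ∀ S < N (num w), acc e (num w) (num (a ++ y)) S ≠ 0 → Acc y)
    (h2 : ∀ y : List Bool, Good y → ∃ S < N (num w), acc e (num w) (num (a ++ y)) S ≠ 0) :
    (UA acc N c e (num a) (num w) ≠ 0 → Alt true (c * w.length) Acc) ∧
    (Alt true (c * w.length) Good → UA acc N c e (num a) (num w) ≠ 0) := by
  have hlog : Nat.log 2 (num w) = w.length := Pool.Agent.Helper65.LinSpace.log_num w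
  unfold UA
  rw [hlog, altN_iff]
  have key : ∀ y : List Bool, y.length = c * w.length →
      ((∑ S ∈ range (N (num w)), lt01 0 (acc e (num w) (catN (num a)
        (leafW (c * w.length) (be y))) S) ≠ 0) ↔
        ∃ S < N (num w), acc e (num w) (num (a ++ y)) S ≠ 0) := by
    intro y hy
    rw [← hy, leafW_be, ← num_append, Ne, sum_eq_zero_iff]
    push Not
    constructor
    · rintro ⟨S, hS, h⟩
      refine ⟨S, mem_range.1 hS, fun h0 => h ?_⟩
      rw [h0, lt01, if_neg (lt_irrefl 0)]
    · rintro ⟨S, hS, h⟩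
      refine ⟨S, mem_range.2 hS, ?_⟩
      rw [lt01, if_pos (Nat.pos_of_ne_zero h)]
      exact one_ne_zero
  constructor
  · refine Alt.mono fun y hy h => ?_
    obtain ⟨S, hS, hacc⟩ := (key y hy).1 h
    exact h1 y S hS hacc
  · exact Alt.mono fun y hy h => (key y hy).2 (h2 y h)

/-- **Average-case hardness with advice and alternation, for every model.** There is one language,
such that for all machines `A`, given by the predicates `Acc w y` (`A` accepts `w` with the
additional word `y`) and `Good w y` (it does so within the bounds), which have a code `e` (for long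
words), the machine, used with alternating quantifiers over the `c n` last letters of `y`, is
correct on at most about half of the words. -/
theorem alt_main (acc : ℕ → ℕ → ℕ → ℕ → ℕ) (N : ℕ → ℕ)
    (hacc : LS (fun z : ℕ × ℕ × ℕ × ℕ => acc z.1 z.2.1 z.2.2.1 z.2.2.2)) (hN : LS N) (c : ℕ) :
    ∃ (L : Set (List Bool)) (s : ℕ → List Bool), DLINSPACE L ∧
      (∀ n, (s n).length = n) ∧
      (∀ w, w ∈ L ↔ Odd ((List.zipWith and (s w.length) w).count true)) ∧
      ∀ (Acc Good : List Bool → List Bool → Prop),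
        (∃ e n₀ : ℕ, ∀ w y : List Bool, n₀ ≤ w.length →
          (∀ S < N (num w), acc e (num w) (num y) S ≠ 0 → Acc w y) ∧
          (Good w y → ∃ S < N (num w), acc e (num w) (num y) S ≠ 0)) →
        ∃ c' : ℝ, ∀ (n : ℕ) (α : List Bool), ∀ M, M = L ∨ M = Lᶜ →
          ({w : List Bool | w.length = n ∧
            (Alt true (c * n) (fun v => Acc w (α ++ v)) → w ∈ M) ∧
            (w ∈ M → Alt true (c * n) fun v => Good w (α ++ v))}.ncard : ℝ) ≤
          2 ^ n / 2 + c' * ((min α.length (n - α.length) : ℕ) + 1) *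
            2 ^ (((n : ℝ) + α.length) / 2) := by
  obtain ⟨L, s, h1, h2, h3, h4⟩ := exists_hard (U := UA acc N c)
    (LS.app3 fun he ha hx => LS.UA hacc hN c he ha hx)
  refine ⟨L, s, h1, h2, h3, fun Acc Good ⟨e, n₀, he⟩ => ?_⟩
  refine ⟨2 ^ (e + 1 + n₀), fun n α M hM => ?_⟩
  rcases Nat.lt_or_ge n n₀ with hn | hn
  · exact small_case (e := e) α (fun w hw => hw.1) hn
  · refine large_case α ?_
    have key : {w : List Bool | w.length = n ∧
            (Alt true (c * n) (fun v => Acc w (α ++ v)) → w ∈ M) ∧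
            (w ∈ M → Alt true (c * n) fun v => Good w (α ++ v))} ⊆
        {w : List Bool | w.length = n ∧ (UA acc N c e (num α) (num w) ≠ 0 ↔ w ∈ M)} := by
      rintro w ⟨hw, hw1, hw2⟩
      obtain ⟨hs, hc⟩ := UA_spec (acc := acc) (N := N) c e (w := w) (a := α)
        (Acc := fun v => Acc w (α ++ v)) (Good := fun v => Good w (α ++ v))
        (fun y S hS h => (he w (α ++ y) (by omega)).1 S hS h)
        (fun y hy => (he w (α ++ y) (by omega)).2 hy)
      subst hw
      exact ⟨rfl, fun h => hw1 (hs h), fun h => hc (hw2 h)⟩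
    refine ncard_le key (fun w hw => hw.1) ?_
    rcases hM with rfl | rfl
    · exact (h4 e n α).1
    · exact (h4 e n α).2

/-- Languages accepted in a model with alternation are in linear space. -/
theorem alt_lin (acc : ℕ → ℕ → ℕ → ℕ → ℕ) (N : ℕ → ℕ)
    (hacc : LS (fun z : ℕ × ℕ × ℕ × ℕ => acc z.1 z.2.1 z.2.2.1 z.2.2.2)) (hN : LS N) (c : ℕ)
    (L : Set (List Bool)) (Acc Good : List Bool → List Bool → Prop)
    (hc : ∃ e n₀ : ℕ, ∀ w y : List Bool, n₀ ≤ w.length →
      (∀ S < N (num w), acc e (num w) (num y) S ≠ 0 → Acc w y) ∧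
      (Good w y → ∃ S < N (num w), acc e (num w) (num y) S ≠ 0))
    (h1 : ∀ w, Alt true (c * w.length) (Acc w) → w ∈ L)
    (h2 : ∀ w ∈ L, Alt true (c * w.length) (Good w)) : DLINSPACE L := by
  classical
  obtain ⟨e, n₀, he⟩ := hc
  have hrun : ∀ w : List Bool, n₀ ≤ w.length → (w ∈ L ↔ UA acc N c e (num []) (num w) ≠ 0) := by
    intro w hw
    obtain ⟨hs, hc⟩ := UA_spec (acc := acc) (N := N) c e (w := w) (a := [])
        (Acc := fun v => Acc w v) (Good := fun v => Good w v)
        (fun y S hS h => (he w y hw).1 S hS h)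
        (fun y hy => (he w y hw).2 hy)
    exact ⟨fun hwL => hc (h2 w hwL), fun h => h1 w (hs h)⟩
  let B : ℕ := tab 2 (2 ^ (n₀ + 1)) fun x => if ∃ w ∈ L, num w = x then 1 else 0
  refine LS.dlinspace (F := fun x => ifz (le01 n₀ (Nat.log 2 x)) (dig 2 B x)
    (UA acc N c e (num []) x)) ?_ L ?_
  · exact LS.ifz (by fun_prop) (by fun_prop) (LS.UA hacc hN c (LS.const e) (LS.const _) LS.id)
  · intro w
    by_cases h : n₀ ≤ w.length
    · have h1 : le01 n₀ (Nat.log 2 (num w)) = 1 := by
        rw [Pool.Agent.Helper65.LinSpace.log_num, le01, if_pos h]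
      simp only [h1]
      rw [ifz_ne one_ne_zero]
      exact hrun w h
    · have h1 : le01 n₀ (Nat.log 2 (num w)) = 0 := by
        rw [Pool.Agent.Helper65.LinSpace.log_num, le01, if_neg h]
      simp only [h1]
      rw [ifz_zero]
      have h2 : num w < 2 ^ (n₀ + 1) := by
        have h3 := Nat.lt_pow_succ_log_self (b := 2) (by norm_num) (num w)
        rw [Pool.Agent.Helper65.LinSpace.log_num] at h3
        exact lt_of_lt_of_le h3 (Nat.pow_le_pow_right (by norm_num) (by omega))
      have h3 : dig 2 B (num w) = if ∃ w' ∈ L, num w' = num w then 1 else 0 := by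
        refine dig_tab ?_ h2
        intro i _
        split_ifs <;> norm_num
      rw [h3]
      constructor
      · intro hw
        rw [if_pos ⟨w, hw, rfl⟩]
        exact one_ne_zero
      · intro h4
        by_contra hw
        apply h4
        rw [if_neg]
        rintro ⟨w', hw', h5⟩
        rw [Pool.Agent.Helper78.Avg.num_injective h5] at hw'
        exact hw hw'

end Pool.Agent.Helper78.Gen2
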