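import Pool.Agent.Helper28.Gen.Main

/-!
# Alternating quantifiers over words, and their evaluation in linear space
-/

namespace Pool.Agent.Helper78.Gen2

open Pool.Agent.Helper65.LinSpace Pool.Agent.Helper78.Avg Finset

/-- `Alt b N f` is the statement `Q₁ y₁ … Q_N y_N : f (y₁ … y_N)` with alternating quantifiers over
`{0, 1}`; the first one is `∃` if `b` is true, and `∀` otherwise. -/
def Alt : Bool → ℕ → (List Bool → Prop) → Prop
  | _, 0, f => f []
  | true, N + 1, f => ∃ x, Alt false N fun y => f (x :: y)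
  | false, N + 1, f => ∀ x, Alt true N fun y => f (x :: y)

theorem Alt.mono {b : Bool} {N : ℕ} {f g : List Bool → Prop}
    (h : ∀ y : List Bool, y.length = N → f y → g y) : Alt b N f → Alt b N g := by
  induction N generalizing b f g with
  | zero => exact h [] rfl
  | succ N ih =>
    cases b with
    | true =>
      rintro ⟨x, hx⟩
      exact ⟨x, ih (fun y hy => h (x :: y) (by simp [hy])) hx⟩
    | false =>
      intro hf x
      exact ih (fun y hy => h (x :: y) (by simp [hy])) (hf x)

theorem Alt.congr {b : Bool} {N : ℕ} {f g : List Bool → Prop}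
    (h : ∀ y : List Bool, y.length = N → (f y ↔ g y)) : Alt b N f ↔ Alt b N g :=
  ⟨Alt.mono fun y hy => (h y hy).1, Alt.mono fun y hy => (h y hy).2⟩

/-- Existential guesses are the special case in which every second letter is ignored. -/
theorem alt_of_exists {N : ℕ} {f : List Bool → Prop} {g : List Bool → List Bool}
    (hg : ∀ x z y, g (x :: z :: y) = x :: g y) (h0 : g [] = []) :
    Alt true (2 * N) (fun y => f (g y)) ↔ ∃ y : List Bool, y.length = N ∧ f y := by
  induction N generalizing f with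
  | zero =>
    show f (g []) ↔ _
    rw [h0]
    constructor
    · intro h
      exact ⟨[], rfl, h⟩
    · rintro ⟨y, hy, hf⟩
      rw [List.length_eq_zero_iff] at hy
      rwa [hy] at hf
  | succ N ih =>
    show (∃ x, ∀ z, Alt true (2 * N) fun y => f (g (x :: z :: y))) ↔ _
    simp only [hg]
    constructor
    · rintro ⟨x, hx⟩
      obtain ⟨y, hy, hf⟩ := (ih (f := fun y => f (x :: y))).1 (hx true)
      exact ⟨x :: y, by simp [hy], hf⟩
    · rintro ⟨y, hy, hf⟩
      rcases y with _ | ⟨x, y⟩
      · simp at hy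
      · exact ⟨x, fun z => (ih (f := fun y => f (x :: y))).2 ⟨y, by simpa using hy, hf⟩⟩

/-! ### Evaluation of the game on numbers -/

/-- The number of trailing ones of `t`, if this is at most `N`. -/
def c1 (N t : ℕ) : ℕ := nrec 0 (fun i r => ifz (eq01 r i * dig 2 t i) r (i + 1)) N

/-- The player at the height `j + 1`, for a game of length `N`: `0` stands for `∃`. -/
def opN (N j a b : ℕ) : ℕ := ifz ((N - 1 - j) % 2) (lt01 0 (a + b)) (lt01 0 (a * b))

/-- The value after folding the finished subtrees. -/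
def fold (N S v c : ℕ) : ℕ := nrec v (fun j v => opN N j (dig 2 S j) v) c

/-- The table after the leaf `t`. -/
def stepA (N : ℕ) (F : ℕ → ℕ) (t S : ℕ) : ℕ :=
  tab 2 (N + 1) fun j => ifz (eq01 j (c1 N t)) (dig 2 S j) (fold N S (lt01 0 (F t)) (c1 N t))

/-- The value of the game. -/
def altN (N : ℕ) (F : ℕ → ℕ) : ℕ := dig 2 (nrec 0 (stepA N F) (2 ^ N)) N

/-- The value of the subtree `m` of the height `j`. -/
def gval (N : ℕ) (F : ℕ → ℕ) : ℕ → ℕ → ℕ
  | 0, m => lt01 0 (F m)
  | j + 1, m => opN N j (gval N F j (2 * m)) (gval N F j (2 * m + 1))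

theorem opN_le (N j a b : ℕ) : opN N j a b ≤ 1 := by
  unfold opN ifz
  split_ifs <;> exact lt01_le_one _ _

theorem gval_le (N : ℕ) (F : ℕ → ℕ) (j m : ℕ) : gval N F j m ≤ 1 := by
  cases j with
  | zero => exact lt01_le_one _ _
  | succ j => exact opN_le _ _ _ _

theorem c1_aux (t n : ℕ) : nrec 0 (fun i r => ifz (eq01 r i * dig 2 t i) r (i + 1)) n ≤ n ∧
    (∀ i < nrec 0 (fun i r => ifz (eq01 r i * dig 2 t i) r (i + 1)) n, dig 2 t i = 1) ∧
    (nrec 0 (fun i r => ifz (eq01 r i * dig 2 t i) r (i + 1)) n < n →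
      dig 2 t (nrec 0 (fun i r => ifz (eq01 r i * dig 2 t i) r (i + 1)) n) = 0) := by
  induction n with
  | zero => exact ⟨le_rfl, fun i hi => absurd hi (Nat.not_lt_zero i), fun h => absurd h (by simp)⟩
  | succ n ih =>
    rw [nrec_succ]
    generalize nrec 0 (fun i r => ifz (eq01 r i * dig 2 t i) r (i + 1)) n = r at *
    obtain ⟨h1, h2, h3⟩ := ih
    by_cases hr : r = n
    · subst hr
      rcases dig_two t r with h4 | h4
      · simp only [h4, mul_zero, ifz, if_true]
        exact ⟨by omega, h2, fun _ => trivial⟩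
      · have h5 : ifz (eq01 r r * dig 2 t r) r (r + 1) = r + 1 := by
          simp [ifz, eq01, h4]
        rw [h5]
        refine ⟨le_rfl, fun m hm => ?_, fun h => absurd h (by omega)⟩
        rcases Nat.lt_succ_iff_lt_or_eq.1 hm with h | h
        · exact h2 m h
        · rwa [h]
    · have h5 : ifz (eq01 r n * dig 2 t n) r (n + 1) = r := by
        simp [ifz, eq01, hr]
      rw [h5]
      exact ⟨by omega, h2, fun _ => h3 (by omega)⟩

theorem c1_le (N t : ℕ) : c1 N t ≤ N := (c1_aux t N).1

theorem c1_lt {N t i : ℕ} (h : i < c1 N t) : dig 2 t i = 1 := (c1_aux t N).2.1 i h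

theorem c1_stop {N t : ℕ} (ht : t < 2 ^ N) : dig 2 t (c1 N t) = 0 := by
  rcases Nat.lt_or_ge (c1 N t) N with h | h
  · exact (c1_aux t N).2.2 h
  · have h1 : c1 N t = N := le_antisymm (c1_le N t) h
    rw [h1]
    unfold dig
    rw [Nat.div_eq_of_lt ht]

theorem mod_of_ones {t c : ℕ} (h : ∀ i < c, dig 2 t i = 1) : t % 2 ^ c = 2 ^ c - 1 := by
  induction c with
  | zero => simp [Nat.mod_one]
  | succ c ih =>
    have h1 := ih fun i hi => h i (by omega)
    have h2 := h c (by omega)
    unfold dig at h2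
    have h3 : t % 2 ^ (c + 1) = t % 2 ^ c + 2 ^ c * (t / 2 ^ c % 2) := by
      rw [pow_succ, Nat.mod_mul]
    rw [h3, h1, h2, pow_succ]
    have : 0 < 2 ^ c := by positivity
    omega

theorem succ_div_of_ones {t c j : ℕ} (h : ∀ i < c, dig 2 t i = 1) (hj : j ≤ c) :
    (t + 1) / 2 ^ j = t / 2 ^ j + 1 := by
  have h1 := mod_of_ones fun i hi => h i (lt_of_lt_of_le hi hj)
  have h2 := Nat.div_add_mod t (2 ^ j)
  have h3 : 0 < 2 ^ j := by positivity
  have h4 : t + 1 = 2 ^ j * (t / 2 ^ j + 1) := by
    rw [h1] at h2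
    rw [mul_add, mul_one]
    omega
  rw [h4, Nat.mul_div_cancel_left _ h3]

theorem succ_div_of_zero {t c j : ℕ} (h0 : dig 2 t c = 0) (hj : c < j) :
    (t + 1) / 2 ^ j = t / 2 ^ j := by
  have h3 : 0 < 2 ^ c := by positivity
  have h1 : t % 2 ^ (c + 1) < 2 ^ c := by
    rw [pow_succ, Nat.mod_mul]
    unfold dig at h0
    rw [h0, mul_zero, add_zero]
    exact Nat.mod_lt _ h3
  have h5 : (t + 1) / 2 ^ (c + 1) = t / 2 ^ (c + 1) := by
    have h2 := Nat.div_add_mod t (2 ^ (c + 1))
    have h4 : t + 1 = 2 ^ (c + 1) * (t / 2 ^ (c + 1)) + (t % 2 ^ (c + 1) + 1) := by omega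
    have h6 : t % 2 ^ (c + 1) + 1 < 2 ^ (c + 1) := by
      rw [pow_succ 2 c] at *
      omega
    rw [h4, Nat.mul_add_div (by positivity), Nat.div_eq_of_lt h6, add_zero]
  obtain ⟨d, rfl⟩ : ∃ d, j = c + 1 + d := ⟨j - (c + 1), by omega⟩
  rw [pow_add, ← Nat.div_div_eq_div_mul, h5, Nat.div_div_eq_div_mul]

/-- Folding the finished subtrees. -/
theorem fold_eq {N : ℕ} {F : ℕ → ℕ} {t S : ℕ}
    (hS : ∀ j ≤ N, dig 2 t j = 1 → dig 2 S j = gval N F j (t / 2 ^ j - 1)) :
    ∀ c ≤ c1 N t, fold N S (lt01 0 (F t)) c = gval N F c (t / 2 ^ c) := by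
  intro c
  induction c with
  | zero =>
    intro _
    show lt01 0 (F t) = lt01 0 (F (t / 2 ^ 0))
    rw [pow_zero, Nat.div_one]
  | succ c ih =>
    intro hc
    have h1 := c1_lt (N := N) (t := t) (i := c) (by omega)
    have h2 := hS c (by have := c1_le N t; omega) h1
    show opN N c (dig 2 S c) (fold N S (lt01 0 (F t)) c) = opN N c _ _
    rw [ih (by omega), h2]
    have h3 : t / 2 ^ c = 2 * (t / 2 ^ (c + 1)) + 1 := by
      unfold dig at h1
      rw [pow_succ, ← Nat.div_div_eq_div_mul]
      omega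
    have h4 : t / 2 ^ c - 1 = 2 * (t / 2 ^ (c + 1)) := by omega
    rw [h4, ← h3]

/-- The invariant of the evaluation. -/
theorem inv {N : ℕ} {F : ℕ → ℕ} : ∀ t ≤ 2 ^ N, ∀ j ≤ N, dig 2 t j = 1 →
    dig 2 (nrec 0 (stepA N F) t) j = gval N F j (t / 2 ^ j - 1) := by
  intro t
  induction t with
  | zero =>
    intro _ j _ h
    simp [dig] at h
  | succ t ih =>
    intro ht j hj h
    have hlt : t < 2 ^ N := by omega
    have ih' := ih (by omega)
    rw [nrec_succ]
    generalize nrec 0 (stepA N F) t = S at *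
    have hc := c1_le N t
    have hstop := c1_stop hlt
    have hfold := fold_eq (F := F) (S := S) ih' (c1 N t) le_rfl
    unfold stepA
    have hval : ∀ i < N + 1, ifz (eq01 i (c1 N t)) (dig 2 S i) (fold N S (lt01 0 (F t)) (c1 N t)) <
        2 := by
      intro i _
      unfold ifz
      split_ifs
      · exact dig_lt (by norm_num) _ _
      · rw [hfold]
        exact Nat.lt_succ_of_le (gval_le _ _ _ _)
    rw [dig_tab hval (by omega)]
    have hone : ∀ i < c1 N t, dig 2 t i = 1 := fun i hi => c1_lt hi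
    rcases lt_trichotomy j (c1 N t) with h1 | h1 | h1
    · exfalso
      have h2 := succ_div_of_ones hone h1.le
      have h3 := c1_lt h1
      unfold dig at h h3
      rw [h2] at h
      omega
    · subst h1
      rw [eq01, if_pos rfl, ifz_ne one_ne_zero, hfold, succ_div_of_ones hone le_rfl,
        Nat.add_sub_cancel]
    · rw [eq01, if_neg (by omega), ifz_zero, succ_div_of_zero hstop h1]
      refine ih' j hj ?_
      unfold dig at h ⊢
      rwa [succ_div_of_zero hstop h1] at h

theorem altN_eq (N : ℕ) (F : ℕ → ℕ) : altN N F = gval N F N 0 := by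
  have h := inv (F := F) (2 ^ N) le_rfl N le_rfl (by
    unfold dig
    rw [Nat.div_self (by positivity)])
  rw [Nat.div_self (by positivity)] at h
  exact h

/-! ### The relation to the quantifiers -/

/-- The number of a word, the first letter being the most significant one. -/
def be : List Bool → ℕ
  | [] => 0
  | x :: y => x.toNat * 2 ^ y.length + be y

theorem be_lt (y : List Bool) : be y < 2 ^ y.length := by
  induction y with
  | nil => simp [be]
  | cons x y ih =>
    show x.toNat * 2 ^ y.length + be y < 2 ^ (y.length + 1)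
    have hx : x.toNat ≤ 1 := Bool.toNat_le x
    have h1 : x.toNat * 2 ^ y.length ≤ 1 * 2 ^ y.length := Nat.mul_le_mul_right _ hx
    rw [pow_succ]
    omega

theorem gval_iff {N : ℕ} (F : ℕ → ℕ) : ∀ j ≤ N, ∀ m, gval N F j m ≠ 0 ↔
    Alt (decide ((N - j) % 2 = 0)) j fun y => F (m * 2 ^ j + be y) ≠ 0 := by
  intro j
  induction j with
  | zero =>
    intro _ m
    show lt01 0 (F m) ≠ 0 ↔ F (m * 2 ^ 0 + be []) ≠ 0
    have : m * 2 ^ 0 + be [] = m := by simp [be]
    rw [this]
    unfold lt01
    split_ifs with h <;> omega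
  | succ j ih =>
    intro hj m
    have ih' := ih (by omega)
    have hstep : ∀ (x : Bool) (y : List Bool), y.length = j →
        m * 2 ^ (j + 1) + be (x :: y) = (2 * m + x.toNat) * 2 ^ j + be y := by
      intro x y hy
      show m * 2 ^ (j + 1) + (x.toNat * 2 ^ y.length + be y) = _
      rw [hy, pow_succ]
      ring
    have hx : ∀ (b x : Bool), Alt b j (fun y => F (m * 2 ^ (j + 1) + be (x :: y)) ≠ 0) ↔
        Alt b j (fun y => F ((2 * m + x.toNat) * 2 ^ j + be y) ≠ 0) := by
      intro b x
      refine Alt.congr fun y hy => ?_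
      rw [hstep x y hy]
    have hg1 := gval_le N F j (2 * m)
    have hg2 := gval_le N F j (2 * m + 1)
    have e1 := ih' (2 * m)
    have e2 := ih' (2 * m + 1)
    rcases Nat.mod_two_eq_zero_or_one (N - (j + 1)) with h | h
    · have h' : ¬ (N - j) % 2 = 0 := by omega
      have h'' : (N - 1 - j) % 2 = 0 := by omega
      rw [decide_eq_false h'] at e1 e2
      rw [decide_eq_true h]
      show opN N j _ _ ≠ 0 ↔ ∃ x, Alt false j fun y => F (m * 2 ^ (j + 1) + be (x :: y)) ≠ 0
      simp only [hx]
      rw [opN, h'', ifz_zero]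
      have h3 : lt01 0 (gval N F j (2 * m) + gval N F j (2 * m + 1)) ≠ 0 ↔
          gval N F j (2 * m) ≠ 0 ∨ gval N F j (2 * m + 1) ≠ 0 := by
        unfold lt01
        split_ifs <;> omega
      rw [h3, e1, e2]
      constructor
      · rintro (h4 | h4)
        · exact ⟨false, h4⟩
        · exact ⟨true, h4⟩
      · rintro ⟨x, h4⟩
        cases x
        · exact Or.inl h4
        · exact Or.inr h4
    · have h' : (N - j) % 2 = 0 := by omega
      have h'' : (N - 1 - j) % 2 = 1 := by omega
      rw [decide_eq_true h'] at e1 e2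
      rw [decide_eq_false (by omega)]
      show opN N j _ _ ≠ 0 ↔ ∀ x, Alt true j fun y => F (m * 2 ^ (j + 1) + be (x :: y)) ≠ 0
      simp only [hx]
      rw [opN, h'', ifz_ne one_ne_zero]
      have h3 : lt01 0 (gval N F j (2 * m) * gval N F j (2 * m + 1)) ≠ 0 ↔
          gval N F j (2 * m) ≠ 0 ∧ gval N F j (2 * m + 1) ≠ 0 := by
        generalize gval N F j (2 * m) = u at *
        generalize gval N F j (2 * m + 1) = v at *
        unfold lt01
        interval_cases u <;> interval_cases v <;> simp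
      rw [h3, e1, e2]
      constructor
      · rintro ⟨h4, h5⟩ x
        cases x
        · exact h4
        · exact h5
      · intro h4
        exact ⟨h4 false, h4 true⟩

/-- The value of the game decides the quantified statement. -/
theorem altN_iff (N : ℕ) (F : ℕ → ℕ) :
    altN N F ≠ 0 ↔ Alt true N fun y => F (be y) ≠ 0 := by
  rw [altN_eq, gval_iff F N le_rfl 0, Nat.sub_self]
  refine Alt.congr fun y _ => ?_
  rw [zero_mul, zero_add]

/-- The number of the word of length `N` whose big-endian number is `t`. -/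
def leafW (N t : ℕ) : ℕ := tab 2 N (fun i => dig 2 t (N - 1 - i)) + 2 ^ N

theorem tab_dig_append (y : List Bool) (m : ℕ) :
    tab 2 y.length (fun i => dig 2 (m * 2 ^ y.length + be y) (y.length - 1 - i)) + 2 ^ y.length =
      num y := by
  induction y generalizing m with
  | nil => simp [tab_zero, num]
  | cons x y ih =>
    show tab 2 (y.length + 1) (fun i => dig 2 (m * 2 ^ (y.length + 1) + (x.toNat * 2 ^ y.length +
      be y)) (y.length + 1 - 1 - i)) + 2 ^ (y.length + 1) = x.toNat + 2 * num y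
    rw [tab_succ']
    have h1 : m * 2 ^ (y.length + 1) + (x.toNat * 2 ^ y.length + be y) =
        (2 * m + x.toNat) * 2 ^ y.length + be y := by ring
    rw [h1]
    have h2 : dig 2 ((2 * m + x.toNat) * 2 ^ y.length + be y) (y.length + 1 - 1 - 0) = x.toNat := by
      unfold dig
      have h3 : y.length + 1 - 1 - 0 = y.length := by omega
      rw [h3, mul_comm (2 * m + x.toNat), Nat.mul_add_div (by positivity),
        Nat.div_eq_of_lt (be_lt y), add_zero, Nat.mul_add_mod]
      exact Nat.mod_eq_of_lt (by have := Bool.toNat_le x; omega)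
    have h4 : (fun i => dig 2 ((2 * m + x.toNat) * 2 ^ y.length + be y)
        (y.length + 1 - 1 - (i + 1))) = fun i => dig 2 ((2 * m + x.toNat) * 2 ^ y.length + be y)
        (y.length - 1 - i) := by
      funext i
      congr 1
      omega
    rw [h2, h4]
    have h5 := ih (2 * m + x.toNat)
    rw [← h5, pow_succ]
    ring

theorem leafW_be (y : List Bool) : leafW y.length (be y) = num y := by
  have h := tab_dig_append y 0
  rwa [zero_mul, zero_add] at h

/-! ### Linear space -/

section

variable {α : Type} [Ctx α]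

@[fun_prop]
theorem LS.c1 {N t : α → ℕ} (hN : LS N) (ht : LS t) : LS (fun a => c1 (N a) (t a)) := by
  unfold Gen2.c1
  refine LS.nrec (G := fun _ => 0) (N := N) (C := N)
    (K := fun a i r => ifz (eq01 r i * dig 2 (t a) i) r (i + 1))
    (by fun_prop) hN hN (by fun_prop) ?_
  intro a i hi
  exact ((c1_aux (t a) i).1).trans hi

@[fun_prop]
theorem LS.opN {N j x y : α → ℕ} (hN : LS N) (hj : LS j) (hx : LS x) (hy : LS y) :
    LS (fun a => opN (N a) (j a) (x a) (y a)) := by
  unfold Gen2.opN
  fun_prop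

theorem LS.fold {N S v c : α → ℕ} (hN : LS N) (hS : LS S) (hv : LS v) (hc : LS c) :
    LS (fun a => fold (N a) (S a) (v a) (c a)) := by
  unfold Gen2.fold
  refine LS.nrec (G := v) (N := c) (C := fun a => v a + 1)
    (K := fun a j r => Gen2.opN (N a) j (dig 2 (S a) j) r)
    hv hc (by fun_prop) (by fun_prop) ?_
  intro a i _
  cases i with
  | zero => exact Nat.le_succ _
  | succ i => exact (opN_le _ _ _ _).trans (by omega)

theorem LS.altN {N C : α → ℕ} {F : α → ℕ → ℕ} (hN : LS N) (hC : LS C)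
    (hF : LS (fun z : α × ℕ => F z.1 z.2)) (hb : ∀ a, 2 ^ (N a + 1) ≤ C a) :
    LS (fun a => altN (N a) (F a)) := by
  unfold Gen2.altN
  have hpow : LS (fun a => 2 ^ N a) := LS.pow_of_le (f := fun _ => 2) (by fun_prop) hN hC
    fun a => (Nat.pow_le_pow_right (by norm_num) (Nat.le_succ _)).trans (hb a)
  have hN2 : LS (fun z : α × ℕ × ℕ => N z.1) := LS.comp (f := fun z : α × ℕ × ℕ => z.1) hN
    (by fun_prop)
  have hC2 : LS (fun z : α × ℕ × ℕ => C z.1) := LS.comp (f := fun z : α × ℕ × ℕ => z.1) hC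
    (by fun_prop)
  have hF2 : LS (fun z : α × ℕ × ℕ => F z.1 z.2.1) :=
    LS.comp (f := fun z : α × ℕ × ℕ => (z.1, z.2.1)) hF (by fun_prop)
  have hstep : LS (fun z : α × ℕ × ℕ => stepA (N z.1) (F z.1) z.2.1 z.2.2) := by
    unfold Gen2.stepA
    refine LS.tab (q := fun _ => 2) (m := fun z : α × ℕ × ℕ => N z.1 + 1)
      (C := fun z : α × ℕ × ℕ => C z.1)
      (d := fun z j => ifz (eq01 j (Gen2.c1 (N z.1) z.2.1))
        (dig 2 z.2.2 j)
        (Gen2.fold (N z.1) z.2.2 (lt01 0 (F z.1 z.2.1)) (Gen2.c1 (N z.1) z.2.1)))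
      ?_ (by fun_prop) (by fun_prop) hC2 ?_ (fun z => hb z.1)
    · have h1 : LS (fun z : α × ℕ × ℕ => Gen2.fold (N z.1) z.2.2 (lt01 0 (F z.1 z.2.1))
          (Gen2.c1 (N z.1) z.2.1)) := LS.fold hN2 (by fun_prop) (by fun_prop) (by fun_prop)
      have h2 : LS (fun p : (α × ℕ × ℕ) × ℕ => Gen2.fold (N p.1.1) p.1.2.2
          (lt01 0 (F p.1.1 p.1.2.1)) (Gen2.c1 (N p.1.1) p.1.2.1)) :=
        LS.comp (f := fun p : (α × ℕ × ℕ) × ℕ => p.1) h1 (by fun_prop)
      have h3 : LS (fun p : (α × ℕ × ℕ) × ℕ => N p.1.1) :=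
        LS.comp (f := fun p : (α × ℕ × ℕ) × ℕ => p.1) hN2 (by fun_prop)
      exact LS.ifz (by fun_prop) (by fun_prop) h2
    · intro z i _
      show ifz _ _ _ < 2
      unfold ifz
      split_ifs
      · exact dig_lt (by norm_num) _ _
      · refine Nat.lt_succ_of_le ?_
        unfold Gen2.fold
        cases Gen2.c1 (N z.1) z.2.1 with
        | zero => exact lt01_le_one _ _
        | succ i => exact opN_le _ _ _ _
  have hlt : ∀ a i, nrec 0 (stepA (N a) (F a)) i ≤ C a := by
    intro a i
    cases i with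
    | zero => exact Nat.zero_le _
    | succ i =>
      refine le_of_lt (lt_of_lt_of_le (tab_lt (q := 2) ?_) (hb a))
      intro j _
      show ifz _ _ _ < 2
      unfold ifz
      split_ifs
      · exact dig_lt (by norm_num) _ _
      · refine Nat.lt_succ_of_le ?_
        unfold Gen2.fold
        cases Gen2.c1 (N a) i with
        | zero => exact lt01_le_one _ _
        | succ i => exact opN_le _ _ _ _
  have hrec : LS (fun a => nrec 0 (stepA (N a) (F a)) (2 ^ N a)) :=
    LS.nrec (G := fun _ => 0) (C := C) (K := fun a => stepA (N a) (F a)) (by fun_prop) hpow hC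
      hstep fun a i _ => hlt a i
  exact LS.dig (by fun_prop) hrec hN

end

end Pool.Agent.Helper78.Gen2
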